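import Pool.Agent.H64.RO.Fis
import Pool.Agent.H3.FS.RNK
import Pool.Agent.H3.FS.CNV
import Pool.Agent.H40.FS.OUT

/-!
# MP_1bad5e_ag: 4-Selmer groups and Tate's conjecture for quadratic twists of elliptic curves, including rank one

`F` is a finite field with `q` elements, `q` odd, `K = F(t)`, `A_0, A_1, A_2 ∈ F[t]` such that the three differences have
the same degree `d ≥ 1` and their product `Δ` is squarefree, `c ∈ F^*`.  For `D ∈ F[t]` let `E_D` be the elliptic curve
`y ^ 2 = (x - c D A_0) (x - c D A_1) (x - c D A_2)` over `K`, the quadratic twist by `c D` of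
`y ^ 2 = (x - A_0) (x - A_1) (x - A_2)`.  Its 2-Selmer group `Sel_2` is a subgroup of `(K^*/K^{*2})^3` and contains the
image of `E_D(K)[2]`, of order 4.  Let `I` be the image of multiplication by 2 from the 4-Selmer group to `Sel_2`: the
classes in `Sel_2` which are twice the class of a continuous cocycle with values in `E_D[4]` which becomes a coboundary
in `E_D` over all completions of `K`.  For `δ ∈ (K^*)^3` let `ν(δ)` be the sum of
`2 deg P` over the primes `P` of `D` at which the order of some `δ_k` is odd, of `2` if the degree of some `δ_k` is odd,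
and of `deg v` over the primes `v` of the `A_i - A_k`, `i < k`, at which the order of `δ_i` is odd.

Theorem: let `D` run through the monic squarefree polynomials of degree `n` prime to `Δ`.  Then, for `n → ∞`:
(1) for all `r, s ≥ 0` the share of the `D` for which `Sel_2` has `2 ^ (2 + r)` and `I` has `2 ^ (2 + s)` elements tends to
`λ(r, s) = ∏_{i ≥ 0} (1 + 2 ^ (-i)) ^ (-1) * ∏_{i = 1} ^ r 2 / (2 ^ i - 1) * p(r, s)`, where `p(r, s)` is the share of the
matrices of rank `r - s` among the alternating `r × r` matrices over the field with two elements;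
(2) the share of the `D` for which `Sel_2` has `2 ^ (2 + r)` elements, `I` has `8` elements and contains the class of a `δ`
with `ν(δ)` not divisible by `4` tends to `κ λ(r, 1)`; here `κ = 3/4` if a prime of `Δ` has odd degree, and `κ = 1/2`
if not;
(3) the share of the `D` for which `I` has `4` elements, or has `8` elements and contains the class of a `δ` with `ν(δ)`
not divisible by `4`, tends to the sum over `r` of `λ(r, 0) + κ λ(r, 1)`, which is `0.721..` or `0.599..`;
(4) if `I` has `2 ^ (2 + s)` elements then `E_D(K)` is isomorphic to `T × ℤ ^ ρ`, `T` finite, `ρ ≤ s`.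
-/

set_option autoImplicit false

namespace Pool.Agent.Results.MP_1bad5e_ag.FourSelmerHeights

open Polynomial IsDedekindDomain WeierstrassCurve

/-- `(P, Q)` represents, over the field `M`, an effective divisor on `D y ^ 2 = ∏ (x - A_k)`
which is disjoint from the points `(A_k, 0)`: the points with `P(x) = 0` and `y = Q(x)`. -/
def IsMumford {M : Type} [Field M] {m : ℕ} (D : M) (A : Fin m → M) (P Q : M[X]) : Prop :=
  P.Monic ∧ (∀ k, P.eval (A k) ≠ 0) ∧ P ∣ C D * Q ^ 2 - ∏ k, (X - C (A k))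

/-- The component `k` of the descent map on this divisor: the product of the values of
`D (x - A_k)` over its points. -/
noncomputable def descent {M : Type} [Field M] (D : M) (P : M[X]) (a : M) : M :=
  (-D) ^ P.natDegree * P.eval a

/-- `δ ∈ (M^*)^m` is in the image of the descent map over `M`, up to squares: the product of
the values on finitely many of the divisors above. -/
def IsValue {M : Type} [Field M] {m : ℕ} (D : M) (A δ : Fin m → M) : Prop :=
  ∃ (r : ℕ) (P Q : Fin r → M[X]) (γ : Fin m → M),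
    (∀ i, IsMumford D A (P i) (Q i)) ∧ (∀ k, γ k ≠ 0) ∧
      ∀ k, δ k * γ k ^ 2 = ∏ i, descent D (P i) (A k)

/-- `δ ∈ (K^*)^m` has product a square and is in the image of the descent map over all
completions of `K = F(t)`: those at the primes of `F[t]` and the one at infinity. -/
structure IsSelmer {F : Type} [Field F] [DecidableEq (RatFunc F)] {m : ℕ}
    (D : RatFunc F) (A δ : Fin m → RatFunc F) : Prop where
  ne_zero : ∀ k, δ k ≠ 0
  product : ∃ y : RatFunc F, ∏ k, δ k = y ^ 2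
  finite : ∀ v : HeightOneSpectrum F[X],
    IsValue (algebraMap (RatFunc F) (v.adicCompletion (RatFunc F)) D)
      (fun k => algebraMap (RatFunc F) (v.adicCompletion (RatFunc F)) (A k))
      (fun k => algebraMap (RatFunc F) (v.adicCompletion (RatFunc F)) (δ k))
  infinity : IsValue (algebraMap (RatFunc F) (RatFunc.CompletionAtInfty F) D)
      (fun k => algebraMap (RatFunc F) (RatFunc.CompletionAtInfty F) (A k))
      (fun k => algebraMap (RatFunc F) (RatFunc.CompletionAtInfty F) (δ k))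

/-- The 2-Selmer group: the classes of these `δ` in `(K^*/K^{*2})^m`. -/
def Selmer {F : Type} [Field F] [DecidableEq (RatFunc F)] {m : ℕ}
    (D : RatFunc F) (A : Fin m → RatFunc F) :
    Set (Fin m → (RatFunc F)ˣ ⧸ (powMonoidHom 2 : (RatFunc F)ˣ →* (RatFunc F)ˣ).range) :=
  {x | ∃ δ : Fin m → (RatFunc F)ˣ, (∀ k, x k = QuotientGroup.mk (δ k)) ∧
    IsSelmer D A fun k => (δ k : RatFunc F)}

/-- The product of the differences of the `A k`. -/
noncomputable def discriminant {F : Type} [Field F] (A : Fin 3 → F[X]) : F[X] :=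
  (A 0 - A 1) * (A 0 - A 2) * (A 1 - A 2)

/-- The twisting polynomials of degree `n`: monic, squarefree and prime to the differences of the `A k`. -/
def Twist {F : Type} [Field F] (A : Fin 3 → F[X]) (n : ℕ) (D : F[X]) : Prop :=
  (D.Monic ∧ D.natDegree = n ∧ Squarefree D) ∧ IsCoprime D (discriminant A)

/-- The curve `y ^ 2 = (x - e 0) (x - e 1) (x - e 2)`. -/
def curve {K : Type} [Field K] (e : Fin 3 → K) : WeierstrassCurve K :=
  ⟨0, -(e 0 + e 1 + e 2), 0, e 0 * e 1 + e 0 * e 2 + e 1 * e 2, -(e 0 * e 1 * e 2)⟩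

section
variable {K : Type} [Field K] (E : WeierstrassCurve K)

/-- The group `E(L)` of the points over the extension `L` of `K`. -/
abbrev Points (L : Type) [Field L] [Algebra K L] : Type := (E⁄L).toAffine.Point

open Classical in
/-- The map `E(L) → E(L')` which belongs to an embedding `L → L'` over `K`. -/
noncomputable abbrev onPoints {L L' : Type} [Field L] [Algebra K L] [Field L'] [Algebra K L']
    (f : L →ₐ[K] L') : Points E L →+ Points E L' :=
  Affine.Point.map (W' := E.toAffine) f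

variable {E} {Ω : Type} [Field Ω] [Algebra K Ω]

open Classical in
/-- `a` is a continuous (locally constant) cocycle of the Galois group of `Ω` over `K` with values in the points of
order dividing 4 of the curve `E : y ^ 2 = ∏ (x - e k)`, and the cocycle `2 a`, with values in the points of order
dividing 2, belongs to `δ ∈ (K^*)^3`: `σ` fixes the square roots `r` of `δ k` if and only if `2 a(σ)` is `0` or the
point `(e k, 0)`. -/
structure IsCocycle (e δ : Fin 3 → K) (a : (Ω ≃ₐ[K] Ω) → Points E Ω) : Prop where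
  four : ∀ σ, 4 • a σ = 0
  cocycle : ∀ σ τ, a (σ * τ) = a σ + onPoints E (σ : Ω →ₐ[K] Ω) (a τ)
  continuous : ∃ M : IntermediateField K Ω, FiniteDimensional K M ∧
    ∀ σ τ : Ω ≃ₐ[K] Ω, (∀ x ∈ M, τ x = x) → a (σ * τ) = a σ
  twice : ∀ (σ : Ω ≃ₐ[K] Ω) (k : Fin 3) (r : Ω), r ^ 2 = algebraMap K Ω (δ k) →
    (σ r = r ↔ 2 • a σ = 0 ∨ ∃ y h, 2 • a σ = Affine.Point.some (algebraMap K Ω (e k)) y h)

open Classical in
/-- The cocycle `a` becomes a coboundary in the points of `E` over the closure `Ω'` of the extension `M` of `K`: for an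
embedding `ι` of `Ω` into `Ω'` and a point `Z`, `ι (a σ) = τ Z - Z` if `σ` is the restriction of `τ` to `Ω`. -/
def IsTrivial (M Ω' : Type) [Field M] [Algebra K M] [Field Ω'] [Algebra M Ω'] [Algebra K Ω']
    [IsScalarTower K M Ω'] (a : (Ω ≃ₐ[K] Ω) → Points E Ω) : Prop :=
  ∃ (ι : Ω →ₐ[K] Ω') (Z : Points E Ω'), ∀ (τ : Ω' ≃ₐ[M] Ω') (σ : Ω ≃ₐ[K] Ω),
    (∀ x, ι (σ x) = τ (ι x)) →
      onPoints E ι (a σ) = onPoints E ((τ : Ω' →ₐ[M] Ω').restrictScalars K) Z - Z

end

/-- A cocycle over a separable closure of `K` with values in the points of `E`. -/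
abbrev Cochain {K : Type} [Field K] (E : WeierstrassCurve K) : Type :=
  (SeparableClosure K ≃ₐ[K] SeparableClosure K) → Points E (SeparableClosure K)

/-- `a` becomes a coboundary in the points of `E` over the separable closure of `M`. -/
def TrivialOver {K : Type} [Field K] {E : WeierstrassCurve K} (M : Type) [Field M] [Algebra K M]
    (a : Cochain E) : Prop := IsTrivial M (SeparableClosure M) a

/-- `δ` is twice a class of the 4-Selmer group of the curve `y ^ 2 = ∏ (x - e k)` over `K = F(t)`. -/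
def Lifts {F : Type} [Field F] [DecidableEq (RatFunc F)] (e δ : Fin 3 → RatFunc F) : Prop :=
  ∃ a : Cochain (curve e), IsCocycle e δ a ∧
    (∀ v : HeightOneSpectrum F[X], TrivialOver (v.adicCompletion (RatFunc F)) a) ∧
    TrivialOver (RatFunc.CompletionAtInfty F) a

/-- The classes in the 2-Selmer group of `E_D` which are twice a class of the 4-Selmer group. -/
def Selmer4 {F : Type} [Field F] [DecidableEq (RatFunc F)]
    (D : RatFunc F) (A : Fin 3 → RatFunc F) :
    Set (Fin 3 → (RatFunc F)ˣ ⧸ (powMonoidHom 2 : (RatFunc F)ˣ →* (RatFunc F)ˣ).range) :=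
  {x | ∃ δ : Fin 3 → (RatFunc F)ˣ, (∀ k, x k = QuotientGroup.mk (δ k)) ∧
    (IsSelmer D A fun k => (δ k : RatFunc F)) ∧
    Lifts (fun k => D * A k) fun k => (δ k : RatFunc F)}

/-- The share of the matrices of rank `r - s` among the alternating `r × r` matrices over the field with two
elements. -/
noncomputable def alternating (r s : ℕ) : ℝ :=
  (Nat.card {M : Matrix (Fin r) (Fin r) (ZMod 2) //
    (∀ i, M i i = 0) ∧ (∀ i j, M i j = M j i) ∧ M.rank + s = r} : ℝ) / 2 ^ (r * (r - 1) / 2)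

/-- The limit. -/
noncomputable def limit (r s : ℕ) : ℝ :=
  (∏' i : ℕ, (1 + 1 / (2 : ℝ) ^ i))⁻¹ *
    (∏ i ∈ Finset.range r, (2 / ((2 : ℝ) ^ (i + 1) - 1))) * alternating r s

/-- The 2-Selmer group of the twist by `c D` has `N` elements. -/
def HasSelmer {F : Type} [Field F] [DecidableEq (RatFunc F)] (c : F) (A : Fin 3 → F[X]) (N : ℕ)
    (D : F[X]) : Prop :=
  Nat.card (Selmer (algebraMap F[X] (RatFunc F) (C c * D))
    (fun k => algebraMap F[X] (RatFunc F) (A k))) = N

/-- The image of the 4-Selmer group of the twist by `c D` in the 2-Selmer group has `N` elements. -/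
def HasSelmer4 {F : Type} [Field F] [DecidableEq (RatFunc F)] (c : F) (A : Fin 3 → F[X]) (N : ℕ)
    (D : F[X]) : Prop :=
  Nat.card (Selmer4 (algebraMap F[X] (RatFunc F) (C c * D))
    (fun k => algebraMap F[X] (RatFunc F) (A k))) = N

/-- The order of `x` at `P` is odd. -/
def IsOddAt {F : Type} [Field F] (P : F[X]) (x : RatFunc F) : Prop :=
  Odd ((multiplicity P x.num : ℤ) - (multiplicity P x.denom : ℤ))

open Classical in
/-- The sum of the degrees of the monic irreducible factors of `f` with the property `p`. -/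
noncomputable def degreeSum {F : Type} [Field F] (f : F[X]) (p : F[X] → Prop) : ℕ :=
  ∑ P ∈ (UniqueFactorizationMonoid.normalizedFactors f).toFinset, if p P then P.natDegree else 0

open Classical in
/-- The number `ν(δ)`. -/
noncomputable def heightNumber {F : Type} [Field F] (A : Fin 3 → F[X]) (D : F[X])
    (δ : Fin 3 → RatFunc F) : ℕ :=
  2 * degreeSum D (fun P => ∃ k, IsOddAt P (δ k)) + 2 * (if ∃ k, Odd (δ k).intDegree then 1 else 0) +
    (degreeSum (A 0 - A 1) (fun v => IsOddAt v (δ 0)) + degreeSum (A 0 - A 2) (fun v => IsOddAt v (δ 0)) +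
      degreeSum (A 1 - A 2) (fun v => IsOddAt v (δ 1)))

/-- The image of the 4-Selmer group of the twist by `c D` in the 2-Selmer group contains the class of a `δ` with
`ν(δ)` not divisible by `4`. -/
def HasHeight {F : Type} [Field F] [DecidableEq (RatFunc F)] (c : F) (A : Fin 3 → F[X])
    (D : F[X]) : Prop :=
  ∃ δ : Fin 3 → RatFunc F, IsSelmer (algebraMap F[X] (RatFunc F) (C c * D))
      (fun k => algebraMap F[X] (RatFunc F) (A k)) δ ∧
    Lifts (fun k => algebraMap F[X] (RatFunc F) (C c * D) * algebraMap F[X] (RatFunc F) (A k)) δ ∧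
    ¬ 4 ∣ heightNumber A D δ

open Classical in
/-- `3/4` if a prime of the discriminant has odd degree, `1/2` if not. -/
noncomputable def weight {F : Type} [Field F] (A : Fin 3 → F[X]) : ℝ :=
  if ∃ v : F[X], Irreducible v ∧ v ∣ discriminant A ∧ Odd v.natDegree then 3 / 4 else 1 / 2

theorem descent_eq {M : Type} [Field M] (D : M) (P : M[X]) (a : M) :
    descent D P a = H94.PM.dvn 1 D P a := by
  rw [descent, H94.PM.dvn, pow_one]

theorem value_iff {M : Type} [Field M] {m : ℕ} (D : M) (A δ : Fin m → M) :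
    IsValue D A δ ↔ H94.PM.IsVln 2 1 D A δ := by
  constructor
  · rintro ⟨r, P, Q, γ, h1, h2, h3⟩
    exact ⟨r, P, Q, γ, h1, h2, fun k => (h3 k).trans
      (Finset.prod_congr rfl fun i _ => descent_eq D (P i) (A k))⟩
  · rintro ⟨r, P, Q, γ, h1, h2, h3⟩
    exact ⟨r, P, Q, γ, h1, h2, fun k => (h3 k).trans
      (Finset.prod_congr rfl fun i _ => (descent_eq D (P i) (A k)).symm)⟩

theorem selmer_iff {F : Type} [Field F] [DecidableEq (RatFunc F)] {m : ℕ} (c : F)
    (A : Fin m → F[X]) (D : F[X]) (δ : Fin m → RatFunc F) :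
    IsSelmer (algebraMap F[X] (RatFunc F) (C c * D))
      (fun k => algebraMap F[X] (RatFunc F) (A k)) δ ↔ H94.PM.IsSln 2 1 c A D δ :=
  ⟨fun h => ⟨h.1, h.2, fun v => (value_iff _ _ _).1 (h.3 v), (value_iff _ _ _).1 h.4⟩,
    fun h => ⟨h.1, h.2, fun v => (value_iff _ _ _).2 (h.3 v), (value_iff _ _ _).2 h.4⟩⟩

theorem selmer_eq {F : Type} [Field F] [DecidableEq (RatFunc F)] {m : ℕ} (c : F)
    (A : Fin m → F[X]) (D : F[X]) :
    Selmer (algebraMap F[X] (RatFunc F) (C c * D))
      (fun k => algebraMap F[X] (RatFunc F) (A k)) = H94.PN.SelC 2 1 c A D := by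
  ext x
  constructor
  · rintro ⟨δ, h1, h2⟩
    exact ⟨δ, h1, (selmer_iff c A D _).1 h2⟩
  · rintro ⟨δ, h1, h2⟩
    exact ⟨δ, h1, (selmer_iff c A D _).2 h2⟩


theorem dl_eq {F : Type} [Field F] [Finite F] (A : Fin 3 → F[X]) :
    H94.PL.dl A = discriminant A := by
  have h : H94.PL.prs 3 = {((0 : Fin 3), (1 : Fin 3)), (0, 2), (1, 2)} := by decide
  unfold H94.PL.dl discriminant
  rw [h, Finset.prod_insert (by decide), Finset.prod_insert (by decide), Finset.prod_singleton,
    mul_assoc]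

theorem card_set {F : Type} [Field F] [Finite F] (n : ℕ) (p : F[X] → Prop) (A : Fin 3 → F[X]) :
    (Nat.card {D : F[X] // Twist A n D ∧ p D} : ℝ) =
      ({D | D ∈ H94.PC.Sq F n ∧ IsCoprime D (H94.PL.dl A) ∧ p D}.ncard : ℝ) := by
  have h : {D : F[X] | Twist A n D ∧ p D} =
      {D | D ∈ H94.PC.Sq F n ∧ IsCoprime D (H94.PL.dl A) ∧ p D} := by
    ext D
    rw [Set.mem_setOf_eq, Set.mem_setOf_eq, H94.PC.mem_Sq, ← and_assoc, dl_eq]
    rfl
  rw [← h]
  rfl

theorem card_set' {F : Type} [Field F] [Finite F] (n : ℕ) (A : Fin 3 → F[X]) :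
    (Nat.card {D : F[X] // Twist A n D} : ℝ) =
      ({D | D ∈ H94.PC.Sq F n ∧ IsCoprime D (H94.PL.dl A)}.ncard : ℝ) := by
  have h : {D : F[X] | Twist A n D} = {D | D ∈ H94.PC.Sq F n ∧ IsCoprime D (H94.PL.dl A)} := by
    ext D
    rw [Set.mem_setOf_eq, Set.mem_setOf_eq, H94.PC.mem_Sq, dl_eq]
    rfl
  rw [← h]
  rfl

/-- the value condition for a rational point -/
theorem value_point {M : Type} [Field M] {D : M} (hD : D ≠ 0) (A : Fin 3 → M) {x y : M}
    (hy : y ≠ 0) (h : y ^ 2 = ∏ k, (x - D * A k)) : IsValue D A fun k => x - D * A k := by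
  have hne : ∀ k, x - D * A k ≠ 0 := by
    intro k hk
    have h1 : ∏ k, (x - D * A k) = 0 := Finset.prod_eq_zero (Finset.mem_univ k) hk
    rw [h1] at h
    exact hy (pow_eq_zero_iff (by norm_num) |>.1 h)
  have h3 : y ^ 2 = D ^ 3 * ∏ k, (x / D - A k) := by
    have h5 : ∀ k, x - D * A k = D * (x / D - A k) := fun k => by field_simp
    rw [h, Fin.prod_univ_three, Fin.prod_univ_three, h5 0, h5 1, h5 2]
    ring
  refine ⟨1, fun _ => X - C (x / D), fun _ => C (y / D ^ 2), fun _ => 1,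
    fun _ => ⟨monic_X_sub_C _, ?_, ?_⟩, fun _ => one_ne_zero, fun k => ?_⟩
  · intro k
    rw [eval_sub, eval_X, eval_C]
    intro h4
    apply hne k
    rw [sub_eq_zero] at h4
    rw [h4, mul_div_cancel₀ _ hD, sub_self]
  · rw [dvd_iff_isRoot, IsRoot.def, eval_sub, eval_mul, eval_pow, eval_C, eval_C,
      eval_prod, sub_eq_zero]
    have h5 : ∏ k, eval (x / D) (X - C (A k)) = ∏ k, (x / D - A k) :=
      Finset.prod_congr rfl fun k _ => by rw [eval_sub, eval_X, eval_C]
    rw [h5, div_pow, h3]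
    field_simp
  · rw [one_pow, mul_one, Finset.prod_const, Finset.card_univ, Fintype.card_fin, pow_one, descent,
      natDegree_X_sub_C, pow_one, eval_sub, eval_X, eval_C]
    field_simp
    ring

/-- the classes of the rational points are in the 2-Selmer group -/
theorem selmer_point {F : Type} [Field F] [DecidableEq (RatFunc F)] {D : RatFunc F} (hD : D ≠ 0)
    (A : Fin 3 → RatFunc F) {x y : RatFunc F} (hy : y ≠ 0) (h : y ^ 2 = ∏ k, (x - D * A k)) :
    IsSelmer D A fun k => x - D * A k := by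
  have hne : ∀ k, x - D * A k ≠ 0 := by
    intro k hk
    have h1 : ∏ k, (x - D * A k) = 0 := Finset.prod_eq_zero (Finset.mem_univ k) hk
    rw [h1] at h
    exact hy (pow_eq_zero_iff (by norm_num) |>.1 h)
  have key : ∀ (M : Type) [Field M] [Algebra (RatFunc F) M],
      IsValue (algebraMap (RatFunc F) M D) (fun k => algebraMap (RatFunc F) M (A k))
        (fun k => algebraMap (RatFunc F) M (x - D * A k)) := by
    intro M _ _
    have h3 : (fun k => algebraMap (RatFunc F) M (x - D * A k)) =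
        fun k => algebraMap (RatFunc F) M x -
          algebraMap (RatFunc F) M D * algebraMap (RatFunc F) M (A k) := by
      funext k
      rw [map_sub, map_mul]
    rw [h3]
    refine value_point ((_root_.map_ne_zero _).2 hD) _ (y := algebraMap (RatFunc F) M y)
      ((_root_.map_ne_zero _).2 hy) ?_
    rw [← map_pow, h, map_prod]
    exact Finset.prod_congr rfl fun k _ => by rw [map_sub, map_mul]
  exact ⟨hne, ⟨y, h.symm⟩, fun v => key _, key _⟩

section
variable {K : Type} [Field K] {e δ : Fin 3 → K} {Ω : Type} [Field Ω] [Algebra K Ω]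

theorem cocycle_iff [d : DecidableEq Ω] (E : WeierstrassCurve K) (hE : E = H94.MW.crv e)
    (a : (Ω ≃ₐ[K] Ω) → H40.FS.Pt e Ω) (a' : (Ω ≃ₐ[K] Ω) → Points E Ω) (ha : HEq a' a) :
    IsCocycle e δ a' ↔ H40.FS.IsCoc a ∧ H40.FS.IsCls δ fun σ => 2 • a σ := by
  obtain rfl : d = fun a b => Classical.propDecidable (a = b) := Subsingleton.elim _ _
  classical
  subst hE
  obtain rfl := eq_of_heq ha
  exact ⟨fun h => ⟨⟨h.1, h.2, h.3⟩, h.4⟩, fun h => ⟨h.1.1, h.1.2, h.1.3, h.2⟩⟩

theorem trivial_iff [d : DecidableEq Ω] (E : WeierstrassCurve K) (hE : E = H94.MW.crv e)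
    (a : (Ω ≃ₐ[K] Ω) → H40.FS.Pt e Ω) (a' : (Ω ≃ₐ[K] Ω) → Points E Ω) (ha : HEq a' a)
    (M Ω' : Type) [Field M] [Algebra K M] [Field Ω'] [Algebra M Ω'] [Algebra K Ω']
    [IsScalarTower K M Ω'] [d' : DecidableEq Ω'] :
    IsTrivial M Ω' a' ↔ H40.FS.IsTriv M Ω' a := by
  obtain rfl : d = fun a b => Classical.propDecidable (a = b) := Subsingleton.elim _ _
  obtain rfl : d' = fun a b => Classical.propDecidable (a = b) := Subsingleton.elim _ _
  subst hE
  obtain rfl := eq_of_heq ha
  exact Iff.rfl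

open Classical in
theorem exists_cocycle [IsSepClosed Ω] [IsGalois K Ω] (h2 : (2 : K) ≠ 0)
    (he : Function.Injective e) {x y : K} (hy : y ≠ 0) (h : y ^ 2 = ∏ k, (x - e k)) :
    ∃ a : (Ω ≃ₐ[K] Ω) → Points (curve e) Ω, (IsCocycle e (fun k => x - e k) a) ∧
      ∀ (M Ω' : Type) [Field M] [Algebra K M] [Field Ω'] [Algebra M Ω'] [Algebra K Ω']
        [IsScalarTower K M Ω'] [IsSepClosed Ω'], IsTrivial M Ω' a := by
  obtain ⟨Z, h3, h4⟩ := H3.FS.pt_lift (Ω := Ω) h2 he hy h
  refine ⟨_, (cocycle_iff (curve e) rfl _ _ HEq.rfl).2 ⟨h3, h4⟩, ?_⟩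
  intro M Ω' _ _ _ _ _ _ _
  exact (trivial_iff (curve e) rfl _ _ HEq.rfl M Ω').2 (H3.FS.pt_triv Z)

end

/-- the classes of the rational points lift -/
theorem lifts_point {F : Type} [Field F] [DecidableEq (RatFunc F)] (h2 : (2 : F) ≠ 0)
    {e : Fin 3 → RatFunc F} (he : Function.Injective e) {x y : RatFunc F} (hy : y ≠ 0)
    (h : y ^ 2 = ∏ k, (x - e k)) : Lifts e fun k => x - e k := by
  classical
  have h2K : (2 : RatFunc F) ≠ 0 := by
    have h6 := (map_ne_zero (algebraMap F (RatFunc F))).2 h2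
    rwa [map_ofNat] at h6
  obtain ⟨a, h3, h4⟩ := exists_cocycle (Ω := SeparableClosure (RatFunc F)) h2K he hy h
  exact ⟨a, h3, fun v => h4 _ _, h4 _ _⟩

/-- the places of `F(t)` -/
theorem places_iff {F : Type} [Field F] [DecidableEq (RatFunc F)] {E : WeierstrassCurve (RatFunc F)}
    (a : (SeparableClosure (RatFunc F) ≃ₐ[RatFunc F] SeparableClosure (RatFunc F)) →
      Points E (SeparableClosure (RatFunc F))) :
    (∀ w : H74.FS.Pl F, IsTrivial (H74.FS.Kw F w) (H40.FS.Ow F w) a) ↔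
      (∀ v : HeightOneSpectrum F[X], TrivialOver (v.adicCompletion (RatFunc F)) a) ∧
      TrivialOver (RatFunc.CompletionAtInfty F) a := by
  constructor
  · intro h
    refine ⟨fun v => ?_, h none⟩
    obtain ⟨P, hm, hP, rfl⟩ := H3.FS.cnv_place v
    exact h (some ⟨P, hm, hP⟩)
  · rintro ⟨h1, h2⟩ (_ | ⟨P, hm, hP⟩)
    · exact h2
    · exact h1 (H94.LT.place P hP)

section
variable {F : Type} [Field F] [DecidableEq (RatFunc F)] [DecidableEq (H40.FS.Oc F)]
  [∀ w : H74.FS.Pl F, DecidableEq (H40.FS.Ow F w)]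

theorem lifts_iff (c : F) (A : Fin 3 → F[X]) (D : F[X]) (δ : Fin 3 → RatFunc F) :
    Lifts (fun k => algebraMap F[X] (RatFunc F) (C c * D) * algebraMap F[X] (RatFunc F) (A k)) δ ↔
      H40.FS.Lifts c A D δ := by
  constructor
  · rintro ⟨a, h1, h2, h3⟩
    obtain ⟨h4, h5⟩ := (cocycle_iff (curve (H40.FS.eD c A D)) rfl a a HEq.rfl).1 h1
    have h6 := (places_iff a).2 ⟨h2, h3⟩
    exact ⟨a, h4, h5, fun w =>
      (trivial_iff (curve (H40.FS.eD c A D)) rfl a a HEq.rfl _ _).1 (h6 w)⟩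
  · rintro ⟨a, h1, h2, h3⟩
    have h4 := (places_iff (E := curve (H40.FS.eD c A D)) a).1 fun w =>
      (trivial_iff (curve (H40.FS.eD c A D)) rfl a a HEq.rfl _ _).2 (h3 w)
    exact ⟨a, (cocycle_iff (curve (H40.FS.eD c A D)) rfl a a HEq.rfl).2 ⟨h1, h2⟩, h4.1, h4.2⟩

theorem selmer4_eq (c : F) (A : Fin 3 → F[X]) (D : F[X]) :
    Selmer4 (algebraMap F[X] (RatFunc F) (C c * D))
      (fun k => algebraMap F[X] (RatFunc F) (A k)) = H40.FS.S4C c A D := by
  ext x
  constructor
  · rintro ⟨δ, h1, h2, h3⟩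
    exact ⟨δ, h1, (selmer_iff c A D _).1 h2, (lifts_iff c A D _).1 h3⟩
  · rintro ⟨δ, h1, h2, h3⟩
    exact ⟨δ, h1, (selmer_iff c A D _).2 h2, (lifts_iff c A D _).2 h3⟩

end

section
variable {F : Type} [Field F] [Finite F] {A : Fin 3 → F[X]} {d : ℕ}

/-- the family -/
theorem fam_of (hd : 1 ≤ d) (hA : ∀ i k, i ≠ k → (A i - A k).natDegree = d)
    (hs : Squarefree (discriminant A)) : H64.RO.Fam A d :=
  ⟨hd, hA, by rw [dl_eq]; exact hs⟩

theorem oddAt_iff (P : F[X]) (x : RatFunc F) : IsOddAt P x ↔ H94.PL.ex 2 P x ≠ 0 := by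
  have h : H94.PL.ex 2 P x =
      (((multiplicity P x.num : ℤ) - (multiplicity P x.denom : ℤ) : ℤ) : ZMod 2) := by
    unfold H94.PL.ex
    push_cast
    rfl
  unfold IsOddAt
  rw [h, Ne, ZMod.intCast_zmod_eq_zero_iff_dvd, ← Int.not_even_iff_odd, even_iff_two_dvd]
  exact Iff.rfl

open Classical in
/-- the monic irreducible factors -/
theorem factors_eq {f : F[X]} (hf : f ≠ 0) :
    (UniqueFactorizationMonoid.normalizedFactors f).toFinset = H94.PC.pf f := by
  ext P
  rw [Multiset.mem_toFinset, H94.PC.mem_pf hf, UniqueFactorizationMonoid.mem_normalizedFactors_iff' hf]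
  constructor
  · rintro ⟨h1, h2, h3⟩
    refine ⟨?_, h1, h3⟩
    have h4 := monic_normalize h1.ne_zero
    rwa [h2] at h4
  · rintro ⟨h1, h2, h3⟩
    exact ⟨h2, h1.normalize_eq_self, h3⟩

theorem degreeSum_eq {f : F[X]} (hf : f ≠ 0) (p : F[X] → Prop) [DecidablePred p] :
    degreeSum f p = ∑ P ∈ H94.PC.pf f, if p P then P.natDegree else 0 := by
  unfold degreeSum
  rw [factors_eq hf]
  refine Finset.sum_congr rfl fun P _ => ?_
  congr

theorem height_eq (h : H64.RO.Fam A d) {D : F[X]} (hD : D.Monic) (δ : Fin 3 → RatFunc F) :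
    heightNumber A D δ = H64.RO.nu A D δ := by
  classical
  have hne : ∀ i k, i ≠ k → A i - A k ≠ 0 := fun i k hik => sub_ne_zero.2 (H64.RO.fam_inj h i k hik)
  have h01 : (0 : Fin 3) ≠ 1 := by decide
  have h02 : (0 : Fin 3) ≠ 2 := by decide
  have h12 : (1 : Fin 3) ≠ 2 := by decide
  have hsq : Squarefree (discriminant A) := by
    rw [← dl_eq]
    exact h.sqf
  have hsq' : Squarefree ((A 0 - A 1) * (A 0 - A 2) * (A 1 - A 2)) := hsq
  have c1 : IsCoprime ((A 0 - A 1) * (A 0 - A 2)) (A 1 - A 2) := by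
    have h3 := (squarefree_mul_iff.1 hsq').1
    exact isRelPrime_iff_isCoprime.1 h3
  have c2 : IsCoprime (A 0 - A 1) (A 0 - A 2) := by
    have h3 := (squarefree_mul_iff.1 (squarefree_mul_iff.1 hsq').2.1).1
    exact isRelPrime_iff_isCoprime.1 h3
  have hpf : ∀ g : F[X] → ℕ, ∑ v ∈ H94.PC.pf (H94.PL.dl A), g v =
      ∑ v ∈ H94.PC.pf (A 0 - A 1), g v + ∑ v ∈ H94.PC.pf (A 0 - A 2), g v +
        ∑ v ∈ H94.PC.pf (A 1 - A 2), g v := by
    intro g
    rw [dl_eq]
    unfold discriminant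
    rw [H94.PC.pf_mul (mul_ne_zero (hne _ _ h01) (hne _ _ h02)) (hne _ _ h12),
      Finset.sum_union (H94.PC.pf_disjoint c1), H94.PC.pf_mul (hne _ _ h01) (hne _ _ h02),
      Finset.sum_union (H94.PC.pf_disjoint c2)]
  have hed1 : ∀ v ∈ H94.PC.pf (A 0 - A 1), H64.RO.ed A v = 0 := by
    intro v hv
    unfold H64.RO.ed
    rw [if_pos (Or.inl (H94.PC.mem_pf' hv).2.2)]
  have hed2 : ∀ v ∈ H94.PC.pf (A 0 - A 2), H64.RO.ed A v = 0 := by
    intro v hv
    unfold H64.RO.ed
    rw [if_pos (Or.inr (H94.PC.mem_pf' hv).2.2)]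
  have hed3 : ∀ v ∈ H94.PC.pf (A 1 - A 2), H64.RO.ed A v = 1 := by
    intro v hv
    have hv1 := H94.PC.mem_pf' hv
    have hv2 : v ∈ H94.PC.pf (H94.PL.dl A) := by
      refine (H94.PC.mem_pf h.sqf.ne_zero).2 ⟨hv1.1, hv1.2.1, ?_⟩
      rw [dl_eq]
      exact hv1.2.2.trans (dvd_mul_left _ _)
    have h5 := H64.RO.fam_nd h hv2 h12 hv1.2.2
    unfold H64.RO.ed
    rw [if_neg]
    rintro (h6 | h6)
    · exact h5 0 1 h01 (fun h8 => h01 h8.1) (fun h8 => h02 h8.1) h6
    · exact h5 0 2 h02 (fun h8 => h01 h8.1) (fun h8 => h02 h8.1) h6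
  unfold heightNumber H64.RO.nu
  rw [degreeSum_eq hD.ne_zero, degreeSum_eq (hne _ _ h01), degreeSum_eq (hne _ _ h02),
    degreeSum_eq (hne _ _ h12), hpf]
  have e1 : (∃ k, Odd (δ k).intDegree) ↔ ∃ k, (((δ k).intDegree : ℤ) : ZMod 2) ≠ 0 := by
    refine exists_congr fun k => ?_
    rw [Ne, ZMod.intCast_zmod_eq_zero_iff_dvd, ← Int.not_even_iff_odd, even_iff_two_dvd]
    exact Iff.rfl
  have e2 : ∀ P : F[X], (∃ k, IsOddAt P (δ k)) ↔ ∃ k, H94.PL.ex 2 P (δ k) ≠ 0 :=
    fun P => exists_congr fun k => oddAt_iff P (δ k)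
  have e3 : ∀ (f : F[X]) (i : Fin 3), (∀ v ∈ H94.PC.pf f, H64.RO.ed A v = i) →
      ∑ v ∈ H94.PC.pf f, (if IsOddAt v (δ i) then v.natDegree else 0) = ∑ v ∈ H94.PC.pf f,
      (if H94.PL.ex 2 v (δ (H64.RO.ed A v)) ≠ 0 then v.natDegree else 0) := by
    intro f i hf
    refine Finset.sum_congr rfl fun v hv => ?_
    rw [hf v hv]
    exact if_congr (oddAt_iff v (δ i)) rfl rfl
  rw [e3 _ 0 hed1, e3 _ 0 hed2, e3 _ 1 hed3]
  congr 1
  congr 1
  · congr 1
    exact Finset.sum_congr rfl fun P _ => if_congr (e2 P) rfl rfl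
  · congr 1
    exact if_congr e1 rfl rfl

theorem weight_eq (h : H64.RO.Fam A d) : H64.RO.kp A / 4 = weight A := by
  classical
  have e : (∃ v ∈ H94.PC.pf (H94.PL.dl A), Odd v.natDegree) ↔
      ∃ v : F[X], Irreducible v ∧ v ∣ discriminant A ∧ Odd v.natDegree := by
    rw [dl_eq]
    have h0 : discriminant A ≠ 0 := by
      rw [← dl_eq]
      exact h.sqf.ne_zero
    constructor
    · rintro ⟨v, hv, h1⟩
      have h2 := H94.PC.mem_pf' hv
      exact ⟨v, h2.2.1, h2.2.2, h1⟩
    · rintro ⟨v, hv, h1, h3⟩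
      refine ⟨normalize v, (H94.PC.mem_pf h0).2 ⟨monic_normalize hv.ne_zero,
        (normalize_associated v).symm.irreducible hv, (normalize_associated v).dvd.trans h1⟩, ?_⟩
      rwa [natDegree_eq_of_degree_eq (degree_eq_degree_of_associated (normalize_associated v))]
  unfold H64.RO.kp weight
  rw [if_congr e rfl rfl]
  split_ifs <;> norm_num

end

section
variable {F : Type} [Field F] [Finite F] [DecidableEq (RatFunc F)] [DecidableEq (H40.FS.Oc F)]
  [∀ w : H74.FS.Pl F, DecidableEq (H40.FS.Ow F w)] {A : Fin 3 → F[X]} {d : ℕ}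

theorem height_iff (h : H64.RO.Fam A d) (c : F) {D : F[X]} (hD : D.Monic) :
    H64.RO.Qe c A D ↔ HasSelmer4 c A 8 D ∧ HasHeight c A D := by
  unfold H64.RO.Qe HasSelmer4
  rw [selmer4_eq]
  refine and_congr_right fun _ => ?_
  constructor
  · rintro ⟨x, ⟨δ, h1, h3, h4⟩, ⟨δ', h1', h3', h5⟩⟩
    refine ⟨fun k => (δ' k : RatFunc F), (selmer_iff c A D _).2 h3', (lifts_iff c A D _).2 h5, ?_⟩
    rw [height_eq h hD]
    have h6 : ∀ k, ∃ u : (RatFunc F)ˣ, (δ k : RatFunc F) = (δ' k : RatFunc F) * (u : RatFunc F) ^ 2 := by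
      intro k
      have h7 : (QuotientGroup.mk (δ' k) : (RatFunc F)ˣ ⧸ (powMonoidHom 2 :
          (RatFunc F)ˣ →* (RatFunc F)ˣ).range) = QuotientGroup.mk (δ k) := by
        rw [← h1 k, ← h1' k]
      obtain ⟨u, hu⟩ := QuotientGroup.eq.1 h7
      refine ⟨u, ?_⟩
      have h8 : u ^ 2 = (δ' k)⁻¹ * δ k := hu
      rw [← Units.val_pow_eq_pow_val, h8, ← Units.val_mul, mul_inv_cancel_left]
    choose u hu using h6
    have h7 := H64.RO.nu_congr (A := A) D (δ := fun k => (δ' k : RatFunc F))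
      (γ := fun k => (u k : RatFunc F)) (fun k => (δ' k).ne_zero) (fun k => (u k).ne_zero)
    rw [← h7]
    have h8 : (fun k => (δ' k : RatFunc F) * (u k : RatFunc F) ^ 2) =
        fun k => (δ k : RatFunc F) := funext fun k => (hu k).symm
    rw [h8]
    exact h4
  · rintro ⟨δ, h1, h3, h4⟩
    rw [height_eq h hD] at h4
    have h1' := (selmer_iff c A D _).1 h1
    have h3' := (lifts_iff c A D _).1 h3
    exact ⟨fun k => QuotientGroup.mk (Units.mk0 (δ k) (h1'.ne k)),
      ⟨fun k => Units.mk0 (δ k) (h1'.ne k), fun k => rfl, h1', h4⟩,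
      ⟨fun k => Units.mk0 (δ k) (h1'.ne k), fun k => rfl, h1', h3'⟩⟩

end

/-- **Theorem.** -/
theorem result (F : Type) [Field F] [Finite F] [DecidableEq (RatFunc F)]
    (h2 : (2 : F) ≠ 0) (A : Fin 3 → F[X]) (d : ℕ) (hd : 1 ≤ d)
    (hA : ∀ i k, i ≠ k → (A i - A k).natDegree = d) (hs : Squarefree (discriminant A))
    (c : F) (hc : c ≠ 0) :
    (∀ r s : ℕ, Filter.Tendsto (fun n : ℕ =>
      (Nat.card {D : F[X] // Twist A n D ∧ HasSelmer c A (2 ^ (2 + r)) D ∧
        HasSelmer4 c A (2 ^ (2 + s)) D} : ℝ) /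
        (Nat.card {D : F[X] // Twist A n D} : ℝ)) Filter.atTop (nhds (limit r s))) ∧
    (∀ r : ℕ, Filter.Tendsto (fun n : ℕ =>
      (Nat.card {D : F[X] // Twist A n D ∧ HasSelmer c A (2 ^ (2 + r)) D ∧
        HasSelmer4 c A 8 D ∧ HasHeight c A D} : ℝ) /
        (Nat.card {D : F[X] // Twist A n D} : ℝ)) Filter.atTop (nhds (weight A * limit r 1))) ∧
    Filter.Tendsto (fun n : ℕ =>
      (Nat.card {D : F[X] // Twist A n D ∧ (HasSelmer4 c A 4 D ∨
        HasSelmer4 c A 8 D ∧ HasHeight c A D)} : ℝ) /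
        (Nat.card {D : F[X] // Twist A n D} : ℝ)) Filter.atTop
      (nhds (∑' r : ℕ, (limit r 0 + weight A * limit r 1))) ∧
    ∀ (D : F[X]) (s : ℕ), D ≠ 0 → HasSelmer4 c A (2 ^ (2 + s)) D →
      ∃ (T : Type) (_ : AddCommGroup T) (_ : Finite T) (ρ : ℕ), ρ ≤ s ∧
        Nonempty ((curve fun k => algebraMap F[X] (RatFunc F) (C c * D * A k)).toAffine.Point ≃+
          T × (Fin ρ → ℤ)) := by
  classical
  have hF := fam_of hd hA hs
  have hA' : ∀ i k, i ≠ k → A i ≠ A k := H64.RO.fam_inj hF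
  refine ⟨fun r s => ?_, fun r => ?_, ?_, fun D s hD hs => ?_⟩
  · have h := H64.RO.fin_0 h2 hF c hc r s
    refine (Filter.tendsto_congr fun n => ?_).2 h
    rw [card_set, card_set']
    congr 3
    ext D
    show (_ ∧ _ ∧ HasSelmer c A (2 ^ (2 + r)) D ∧ HasSelmer4 c A (2 ^ (2 + s)) D) ↔ _
    rw [HasSelmer, selmer_eq, HasSelmer4, selmer4_eq]
    rfl
  · have h := H64.RO.fin_1 h2 hF c hc r
    have e : H64.RO.Ty r * (H64.RO.kp A / 4 * H3.FS.alt r 1) = weight A * limit r 1 := by
      rw [weight_eq hF]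
      show H64.RO.Ty r * (weight A * alternating r 1) = weight A * (H64.RO.Ty r * alternating r 1)
      ring
    rw [e] at h
    refine (Filter.tendsto_congr fun n => ?_).2 h
    rw [card_set, card_set']
    congr 3
    ext D
    show (D ∈ H94.PC.Sq F n ∧ IsCoprime D (H94.PL.dl A) ∧ HasSelmer c A (2 ^ (2 + r)) D ∧
      HasSelmer4 c A 8 D ∧ HasHeight c A D) ↔ (D ∈ H94.PC.Sq F n ∧ IsCoprime D (H94.PL.dl A) ∧
        Nat.card (H94.PN.SelC 2 1 c A D) = 2 ^ (2 + r) ∧ H64.RO.Qe c A D)
    rw [HasSelmer, selmer_eq]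
    refine and_congr_right fun hD => and_congr_right fun _ => and_congr_right fun _ => ?_
    exact (height_iff hF c (H94.PC.mem_Sq.1 hD).1).symm
  · have h := H64.RO.fin_s h2 hF c hc
    have e : (∑' r : ℕ, H64.RO.Ty r * (H3.FS.alt r 0 + H64.RO.kp A / 4 * H3.FS.alt r 1)) =
        ∑' r : ℕ, (limit r 0 + weight A * limit r 1) := by
      refine tsum_congr fun r => ?_
      rw [weight_eq hF]
      show H64.RO.Ty r * (alternating r 0 + weight A * alternating r 1) =
        H64.RO.Ty r * alternating r 0 + weight A * (H64.RO.Ty r * alternating r 1)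
      ring
    rw [e] at h
    refine (Filter.tendsto_congr fun n => ?_).2 h
    rw [card_set, card_set']
    congr 3
    ext D
    show (D ∈ H94.PC.Sq F n ∧ IsCoprime D (H94.PL.dl A) ∧ (HasSelmer4 c A 4 D ∨
      HasSelmer4 c A 8 D ∧ HasHeight c A D)) ↔ (D ∈ H94.PC.Sq F n ∧ IsCoprime D (H94.PL.dl A) ∧
        (Nat.card (H40.FS.S4C c A D) = 4 ∨ H64.RO.Qe c A D))
    refine and_congr_right fun hD => and_congr_right fun _ => ?_
    rw [height_iff hF c (H94.PC.mem_Sq.1 hD).1, HasSelmer4, selmer4_eq]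
  · have hcD : algebraMap F[X] (RatFunc F) (C c * D) ≠ 0 := by
      rw [Ne, map_eq_zero_iff _ (RatFunc.algebraMap_injective F)]
      exact mul_ne_zero (C_ne_zero.2 hc) hD
    have he : Function.Injective fun k => algebraMap F[X] (RatFunc F) (C c * D * A k) := by
      intro i k hik
      by_contra hne
      exact hA' i k hne (mul_left_cancel₀ (mul_ne_zero (C_ne_zero.2 hc) hD)
        (RatFunc.algebraMap_injective F hik))
    refine H3.FS.rnk h2 he (S := Selmer4 (algebraMap F[X] (RatFunc F) (C c * D))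
      (fun k => algebraMap F[X] (RatFunc F) (A k))) (fun x y δ hy h hδ => ?_) hs
    have e1 : ∀ k, algebraMap F[X] (RatFunc F) (C c * D * A k) =
        algebraMap F[X] (RatFunc F) (C c * D) * algebraMap F[X] (RatFunc F) (A k) :=
      fun k => map_mul _ _ _
    have e2 : (fun k => (δ k : RatFunc F)) = fun k => x -
        algebraMap F[X] (RatFunc F) (C c * D) * algebraMap F[X] (RatFunc F) (A k) := by
      funext k
      rw [hδ, e1]
    refine ⟨δ, fun k => rfl, ?_, ?_⟩
    · rw [e2]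
      refine selmer_point hcD _ hy ?_
      rw [h]
      exact Finset.prod_congr rfl fun k _ => by rw [e1]
    · rw [e2]
      refine lifts_point h2 ?_ hy ?_
      · intro i k hik
        refine he ?_
        show algebraMap F[X] (RatFunc F) (C c * D * A i) = algebraMap F[X] (RatFunc F) (C c * D * A k)
        rw [e1, e1]
        exact hik
      · rw [h]
        exact Finset.prod_congr rfl fun k _ => by rw [e1]

end Pool.Agent.Results.MP_1bad5e_ag.FourSelmerHeights
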